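import Mathlib

/-!
`y n = (1 / y (n - a) + 1 / y (n - b)) / 2`: convergence to `1` when `a / g` and `b / g` have
different parities, `g = gcd a b`.
-/

namespace Pool.Agent.N420.BS

open Filter Topology

/-- the normalised recurrence -/
def Rec (a b : ℕ) (y : ℕ → ℝ) : Prop :=
  ∀ n, a ≤ n → b ≤ n → y n = (1 / y (n - a) + 1 / y (n - b)) / 2

/-- eventual bound from `p` on -/
def Bd (R : ℝ) (p : ℕ) (y : ℕ → ℝ) : Prop := ∀ j, p ≤ j → 1 / R ≤ y j ∧ y j ≤ R

lemma hi_step {R δ u v : ℝ} (hR : 1 ≤ R) (hδ : 0 ≤ δ) (hd : 0 < R - 2 * δ)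
    (hu : 0 < u) (hv1 : 1 / R ≤ v) (h : R - δ ≤ (1 / u + 1 / v) / 2) :
    u ≤ 1 / (R - 2 * δ) := by
  have hR0 : 0 < R := by linarith
  have hv0 : 0 < v := lt_of_lt_of_le (by positivity) hv1
  have h1 : 1 / v ≤ R := by
    rw [div_le_iff₀ hv0]
    rw [div_le_iff₀ hR0] at hv1
    linarith
  have h2 : R - 2 * δ ≤ 1 / u := by linarith
  rw [le_div_iff₀ hd]
  rw [le_div_iff₀ hu] at h2
  linarith

lemma lo_step {R δ u v : ℝ} (hR : 1 ≤ R) (hδ : 0 ≤ δ) (hd : 0 < R - 2 * δ)
    (hu : 0 < u) (hv : 0 < v) (hv2 : v ≤ R) (h : (1 / u + 1 / v) / 2 ≤ 1 / (R - δ)) :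
    R - 2 * δ ≤ u := by
  have hR0 : 0 < R := by linarith
  have hd1 : 0 < R - δ := by linarith
  have h1 : 1 / R ≤ 1 / v := one_div_le_one_div_of_le hv hv2
  have h2 : 1 / u ≤ 2 / (R - δ) - 1 / R := by
    have : 2 / (R - δ) = 2 * (1 / (R - δ)) := by ring
    rw [this]
    linarith
  have h3 : 2 / (R - δ) - 1 / R = (R + δ) / (R * (R - δ)) := by
    field_simp
    ring
  rw [h3, div_le_div_iff₀ hu (by positivity)] at h2
  -- R (R-δ) ≤ (R+δ) u
  by_contra hcon
  push Not at hcon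
  have h4 : (R + δ) * u < (R + δ) * (R - 2 * δ) := by
    apply mul_lt_mul_of_pos_left hcon
    linarith
  nlinarith [mul_nonneg hδ hδ]

section

variable {a b : ℕ} {y : ℕ → ℝ} {R : ℝ} {p : ℕ}

lemma pos_of_bd (hR : 1 ≤ R) (hb : Bd R p y) {j : ℕ} (hj : p ≤ j) : 0 < y j :=
  lt_of_lt_of_le (by positivity) (hb j hj).1

/-- one step back along `a` -/
lemma step_hi (hrec : Rec a b y) (hR : 1 ≤ R) (hb : Bd R p y) {δ : ℝ} (hδ : 0 ≤ δ)
    (hd : 0 < R - 2 * δ) {n : ℕ} (hn1 : p + a ≤ n) (hn2 : p + b ≤ n) (h : R - δ ≤ y n) :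
    y (n - a) ≤ 1 / (R - 2 * δ) := by
  rw [hrec n (by omega) (by omega)] at h
  exact hi_step hR hδ hd (pos_of_bd hR hb (by omega)) (hb _ (by omega)).1 h

lemma step_lo (hrec : Rec a b y) (hR : 1 ≤ R) (hb : Bd R p y) {δ : ℝ} (hδ : 0 ≤ δ)
    (hd : 0 < R - 2 * δ) {n : ℕ} (hn1 : p + a ≤ n) (hn2 : p + b ≤ n) (h : y n ≤ 1 / (R - δ)) :
    R - 2 * δ ≤ y (n - a) := by
  rw [hrec n (by omega) (by omega)] at h
  exact lo_step hR hδ hd (pos_of_bd hR hb (by omega)) (pos_of_bd hR hb (by omega))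
    (hb _ (by omega)).2 h

/-- the extreme property with sign -/
def Ext (R ε : ℝ) (e : Bool) (x : ℝ) : Prop :=
  if e then R - ε ≤ x else x ≤ 1 / (R - ε)

lemma step_ext (hrec : Rec a b y) (hR : 1 ≤ R) (hb : Bd R p y) {δ : ℝ} (hδ : 0 ≤ δ)
    (hd : 0 < R - 2 * δ) {n : ℕ} (hn1 : p + a ≤ n) (hn2 : p + b ≤ n) {e : Bool}
    (h : Ext R δ e (y n)) : Ext R (2 * δ) (!e) (y (n - a)) := by
  cases e with
  | true =>
    simp only [Ext, if_true] at h
    simp only [Ext, Bool.not_true, Bool.false_eq_true, if_false]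
    exact step_hi hrec hR hb hδ hd hn1 hn2 h
  | false =>
    simp only [Ext, Bool.false_eq_true, if_false] at h
    simp only [Ext, Bool.not_false, if_true]
    exact step_lo hrec hR hb hδ hd hn1 hn2 h

lemma chain (hrec : Rec a b y) (hR : 1 ≤ R) (hb : Bd R p y) {δ : ℝ} (hδ : 0 ≤ δ)
    {n : ℕ} {e : Bool} (h : Ext R δ e (y n)) :
    ∀ s : ℕ, 0 < R - 2 ^ s * δ → p + a + b + s * a ≤ n →
      Ext R (2 ^ s * δ) (if s % 2 = 0 then e else !e) (y (n - s * a)) := by
  intro s
  induction s with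
  | zero => intro _ _; simpa using h
  | succ s ih =>
    intro hd hn
    have h2 : (2 : ℝ) ^ (s + 1) * δ = 2 * (2 ^ s * δ) := by ring
    have hpos : 0 ≤ (2 : ℝ) ^ s * δ := by positivity
    have hd' : 0 < R - 2 ^ s * δ := by
      rw [h2] at hd
      linarith
    have hsa : (s + 1) * a = s * a + a := by ring
    rw [hsa] at hn
    have ih' := ih hd' (by omega)
    rw [h2] at hd ⊢
    have := step_ext hrec hR hb hpos hd (n := n - s * a) (by omega) (by omega) ih'
    have hidx : n - s * a - a = n - (s + 1) * a := by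
      rw [hsa]
      omega
    rw [hidx] at this
    rcases Nat.mod_two_eq_zero_or_one s with hs | hs
    · have hs' : (s + 1) % 2 = 1 := by omega
      rw [hs] at this
      rw [hs']
      simpa using this
    · have hs' : (s + 1) % 2 = 0 := by omega
      rw [hs] at this
      rw [hs']
      simpa using this

lemma Rec.symm (h : Rec a b y) : Rec b a y := by
  intro n h1 h2
  rw [h n h2 h1, add_comm (1 / y (n - a))]

/-- no extreme values far out -/
lemma no_ext (hrec : Rec a b y) (hR : 1 ≤ R) (hb : Bd R p y) {A B : ℕ}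
    (hAB : B * a = A * b) (hpar : A % 2 ≠ B % 2) {δ : ℝ} (hδ : 0 ≤ δ)
    (hd : 2 ^ (A + B) * δ < R - 1) {n : ℕ} (hn : p + a + b + B * a ≤ n) {e : Bool}
    (h : Ext R δ e (y n)) : False := by
  have hA : (2 : ℝ) ^ A * δ ≤ 2 ^ (A + B) * δ := by
    apply mul_le_mul_of_nonneg_right _ hδ
    exact pow_le_pow_right₀ (by norm_num) (by omega)
  have hB : (2 : ℝ) ^ B * δ ≤ 2 ^ (A + B) * δ := by
    apply mul_le_mul_of_nonneg_right _ hδ
    exact pow_le_pow_right₀ (by norm_num) (by omega)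
  have c1 := chain hrec hR hb hδ h B (by linarith) hn
  have c2 := chain hrec.symm hR hb hδ h A (by linarith) (by rw [← hAB]; omega)
  rw [← hAB] at c2
  set q := y (n - B * a) with hq
  -- one is high, the other low
  have key : ∀ ε₁ ε₂ : ℝ, ε₁ < R - 1 → ε₂ < R - 1 → Ext R ε₁ true q → Ext R ε₂ false q → False := by
    intro ε₁ ε₂ h1 h2 e1 e2
    simp only [Ext, if_true] at e1
    simp only [Ext, Bool.false_eq_true, if_false] at e2
    have g1 : 1 < q := by linarith
    have g2 : 1 / (R - ε₂) < 1 := by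
      rw [div_lt_one (by linarith)]
      linarith
    linarith
  have hA' : (2 : ℝ) ^ A * δ < R - 1 := by linarith
  have hB' : (2 : ℝ) ^ B * δ < R - 1 := by linarith
  rcases Nat.mod_two_eq_zero_or_one A with ha | ha <;>
    rcases Nat.mod_two_eq_zero_or_one B with hb' | hb'
  · exact hpar (by rw [ha, hb'])
  · rw [ha] at c2
    rw [hb'] at c1
    simp only [if_true, one_ne_zero, if_false] at c1 c2
    cases e with
    | true => exact key _ _ hA' hB' c2 (by simpa using c1)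
    | false => exact key _ _ hB' hA' (by simpa using c1) c2
  · rw [ha] at c2
    rw [hb'] at c1
    simp only [if_true, one_ne_zero, if_false] at c1 c2
    cases e with
    | true => exact key _ _ hB' hA' c1 (by simpa using c2)
    | false => exact key _ _ hA' hB' (by simpa using c2) c1
  · exact hpar (by rw [ha, hb'])

/-- contraction -/
lemma contract (hrec : Rec a b y) (hR : 1 ≤ R) (hb : Bd R p y) {A B : ℕ}
    (hAB : B * a = A * b) (hpar : A % 2 ≠ B % 2) :
    Bd (1 + (1 - 1 / 2 ^ (A + B + 1)) * (R - 1)) (p + a + b + B * a) y := by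
  rcases eq_or_lt_of_le hR with h1 | h1
  · subst h1
    intro j hj
    have := hb j (by omega)
    simpa using this
  set δ : ℝ := (R - 1) / 2 ^ (A + B + 1) with hδ
  have h2 : (0 : ℝ) < 2 ^ (A + B + 1) := by positivity
  have hδ0 : 0 ≤ δ := div_nonneg (by linarith) h2.le
  have hR' : 1 + (1 - 1 / 2 ^ (A + B + 1)) * (R - 1) = R - δ := by
    rw [hδ]
    field_simp
    ring
  have hd : 2 ^ (A + B) * δ < R - 1 := by
    rw [hδ, pow_succ]
    have : (2 : ℝ) ^ (A + B) * ((R - 1) / (2 ^ (A + B) * 2)) = (R - 1) / 2 := by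
      field_simp
    rw [this]
    linarith
  rw [hR']
  intro j hj
  constructor
  · by_contra hcon
    push Not at hcon
    exact no_ext hrec hR hb hAB hpar hδ0 hd hj (e := false)
      (by simp only [Ext, Bool.false_eq_true, if_false]; exact hcon.le)
  · by_contra hcon
    push Not at hcon
    exact no_ext hrec hR hb hAB hpar hδ0 hd hj (e := true)
      (by simp only [Ext, if_true]; exact hcon.le)

lemma iterate (hrec : Rec a b y) (hR : 1 ≤ R) (hb : Bd R p y) {A B : ℕ}
    (hAB : B * a = A * b) (hpar : A % 2 ≠ B % 2) :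
    ∀ i : ℕ, Bd (1 + (1 - 1 / 2 ^ (A + B + 1)) ^ i * (R - 1)) (p + i * (a + b + B * a)) y := by
  have hρ : (0 : ℝ) ≤ 1 - 1 / 2 ^ (A + B + 1) := by
    have : (1 : ℝ) / 2 ^ (A + B + 1) ≤ 1 := by
      rw [div_le_one (by positivity)]
      exact one_le_pow₀ (by norm_num)
    linarith
  intro i
  induction i with
  | zero => simpa using hb
  | succ i ih =>
    have hR' : 1 ≤ 1 + (1 - 1 / 2 ^ (A + B + 1)) ^ i * (R - 1) := by
      have : 0 ≤ (1 - 1 / 2 ^ (A + B + 1) : ℝ) ^ i * (R - 1) :=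
        mul_nonneg (pow_nonneg hρ i) (by linarith)
      linarith
    have := contract hrec hR' ih hAB hpar
    have e1 : 1 + (1 - 1 / 2 ^ (A + B + 1)) * (1 + (1 - 1 / 2 ^ (A + B + 1)) ^ i * (R - 1) - 1)
        = 1 + (1 - 1 / 2 ^ (A + B + 1)) ^ (i + 1) * (R - 1) := by ring
    have e2 : p + i * (a + b + B * a) + a + b + B * a = p + (i + 1) * (a + b + B * a) := by ring
    rw [e1, e2] at this
    exact this

/-- initial bound -/
lemma exists_bd (hrec : Rec a b y) (ha : 0 < a) (hb : 0 < b) (hpos : ∀ n, n < max a b → 0 < y n) :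
    ∃ R : ℝ, 1 ≤ R ∧ Bd R 0 y := by
  -- bound of the initial values
  obtain ⟨R, hR⟩ : ∃ R : ℝ, ∀ n, n < max a b → 1 ≤ R ∧ 1 / R ≤ y n ∧ y n ≤ R := by
    refine ⟨1 + ∑ n ∈ Finset.range (max a b), (y n + 1 / y n), fun n hn => ?_⟩
    have h0 : ∀ i ∈ Finset.range (max a b), 0 ≤ y i + 1 / y i := by
      intro i hi
      have := hpos i (Finset.mem_range.1 hi)
      positivity
    have h1 : y n + 1 / y n ≤ ∑ n ∈ Finset.range (max a b), (y n + 1 / y n) :=
      Finset.single_le_sum h0 (Finset.mem_range.2 hn)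
    have hyn := hpos n hn
    have hyn' : 0 < 1 / y n := by positivity
    refine ⟨by linarith, ?_, by linarith⟩
    rw [div_le_iff₀ (by linarith)]
    have : y n * (1 / y n) = 1 := by field_simp
    nlinarith
  have hR1 : 1 ≤ R := (hR 0 (by omega)).1
  refine ⟨R, hR1, ?_⟩
  have hR0 : 0 < R := by linarith
  intro j _
  induction j using Nat.strong_induction_on with
  | _ j ih =>
    rcases Nat.lt_or_ge j (max a b) with h | h
    · exact (hR j h).2
    · have hja : a ≤ j := le_trans (le_max_left _ _) h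
      have hjb : b ≤ j := le_trans (le_max_right _ _) h
      obtain ⟨l1, u1⟩ := ih (j - a) (by omega) (Nat.zero_le _)
      obtain ⟨l2, u2⟩ := ih (j - b) (by omega) (Nat.zero_le _)
      have p1 : 0 < y (j - a) := lt_of_lt_of_le (by positivity) l1
      have p2 : 0 < y (j - b) := lt_of_lt_of_le (by positivity) l2
      rw [hrec j hja hjb]
      have q1 : 1 / y (j - a) ≤ R := by
        rw [div_le_iff₀ p1]
        rw [div_le_iff₀ hR0] at l1
        linarith
      have q2 : 1 / y (j - b) ≤ R := by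
        rw [div_le_iff₀ p2]
        rw [div_le_iff₀ hR0] at l2
        linarith
      have r1 : 1 / R ≤ 1 / y (j - a) := one_div_le_one_div_of_le p1 u1
      have r2 : 1 / R ≤ 1 / y (j - b) := one_div_le_one_div_of_le p2 u2
      constructor <;> linarith

/-- convergence -/
theorem tendsto_one (hrec : Rec a b y) (ha : 0 < a) (hb : 0 < b)
    (hpos : ∀ n, n < max a b → 0 < y n) {A B : ℕ}
    (hAB : B * a = A * b) (hpar : A % 2 ≠ B % 2) : Tendsto y atTop (𝓝 1) := by
  obtain ⟨R, hR, hbd⟩ := exists_bd hrec ha hb hpos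
  have hit := iterate hrec hR hbd hAB hpar
  set ρ : ℝ := 1 - 1 / 2 ^ (A + B + 1) with hρ
  have hρ0 : 0 ≤ ρ := by
    have : (1 : ℝ) / 2 ^ (A + B + 1) ≤ 1 := by
      rw [div_le_one (by positivity)]
      exact one_le_pow₀ (by norm_num)
    rw [hρ]
    linarith
  have hρ1 : ρ < 1 := by
    have : (0 : ℝ) < 1 / 2 ^ (A + B + 1) := by positivity
    rw [hρ]
    linarith
  have hlim : Tendsto (fun i : ℕ => ρ ^ i * (R - 1)) atTop (𝓝 0) := by
    have := (tendsto_pow_atTop_nhds_zero_of_lt_one hρ0 hρ1).mul_const (R - 1)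
    simpa using this
  rw [Metric.tendsto_atTop]
  intro ε hε
  obtain ⟨i, hi⟩ := ((tendsto_order.1 hlim).2 ε hε).exists
  refine ⟨0 + i * (a + b + B * a), fun n hn => ?_⟩
  obtain ⟨l, u⟩ := hit i n hn
  set S := ρ ^ i * (R - 1) with hS
  have hS0 : 0 ≤ S := mul_nonneg (pow_nonneg hρ0 i) (by linarith)
  have hl : 1 - S ≤ 1 / (1 + S) := by
    rw [le_div_iff₀ (by linarith)]
    nlinarith
  rw [Real.dist_eq, abs_lt]
  constructor <;> linarith

end

end Pool.Agent.N420.BS
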