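import Mathlib

/-!
Definitions for `MP_247194_an`.
-/

namespace Pool.Agent.N420.BS

open Filter Topology

/-- The solution of `x (n + 1) = 1 / x (n - k) + 1 / x (n - l)` whose first `max k l + 1` values are
given by the vector `v`; the page's initial values `x_{-m}, ..., x_0` are `v 0, ..., v m` and the
page's `x_n` is `sol k l v (n + m)`, with `m = max k l`. -/
noncomputable def sol (k l : ℕ) (v : Fin (max k l + 1) → ℝ) : ℕ → ℝ
  | n => if h : n < max k l + 1 then v ⟨n, h⟩
      else 1 / sol k l v (n - 1 - k) + 1 / sol k l v (n - 1 - l)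
termination_by n => n
decreasing_by all_goals omega

/-- The basin of `√2`: the positive initial vectors whose solution tends to `√2`. -/
def basin (k l : ℕ) : Set (Fin (max k l + 1) → ℝ) :=
  {v | (∀ i, 0 < v i) ∧ Tendsto (sol k l v) atTop (𝓝 (Real.sqrt 2))}

/-- The scaling action of `c ∈ (0, ∞) ^ g`: the entry `v i` is multiplied by `c (i mod g)` if the
integer part of `i / g` is even and divided by it if it is odd. -/
noncomputable def scale {g N : ℕ} (hg : 0 < g) (c : Fin g → ℝ) (v : Fin N → ℝ) : Fin N → ℝ :=
  fun i => if (i : ℕ) / g % 2 = 0 then v i * c ⟨i % g, Nat.mod_lt _ hg⟩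
    else v i / c ⟨i % g, Nat.mod_lt _ hg⟩

end Pool.Agent.N420.BS
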