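import Mathlib

/-!
Sequences with `u n` the arithmetic or harmonic mean of `u (n - A)` and `u (n - B)`, `A`, `B`
coprime, converge to a positive limit.
-/

namespace Pool.Agent.N420.BS

open Filter Topology

/-- the recurrence by means -/
def MeanRec (A B : ℕ) (u : ℕ → ℝ) : Prop :=
  ∀ n, A ≤ n → B ≤ n → u n = (u (n - A) + u (n - B)) / 2 ∨
    u n = 2 / (1 / u (n - A) + 1 / u (n - B))

lemma mean_le {v w : ℝ} (hv : 0 < v) (hw : 0 < w) :
    2 / (1 / v + 1 / w) ≤ (v + w) / 2 := by
  have : 1 / v + 1 / w = (v + w) / (v * w) := by field_simp; ring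
  rw [this, div_div_eq_mul_div, div_le_div_iff₀ (by positivity) (by norm_num)]
  nlinarith [sq_nonneg (v - w)]

lemma le_mean {m v w : ℝ} (hm : 0 < m) (hv : m ≤ v) (hw : m ≤ w) :
    m ≤ 2 / (1 / v + 1 / w) := by
  have hv0 : 0 < v := by linarith
  have hw0 : 0 < w := by linarith
  have h1 : 1 / v ≤ 1 / m := one_div_le_one_div_of_le hm hv
  have h2 : 1 / w ≤ 1 / m := one_div_le_one_div_of_le hm hw
  rw [le_div_iff₀ (by positivity)]
  have h3 : m * (1 / m) = 1 := by field_simp
  nlinarith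

section

variable {A B : ℕ} {u : ℕ → ℝ} {m M : ℝ} {p : ℕ}

/-- bounds from `p` on -/
def Bd2 (m M : ℝ) (p : ℕ) (u : ℕ → ℝ) : Prop := ∀ j, p ≤ j → m ≤ u j ∧ u j ≤ M

lemma step_up (hrec : MeanRec A B u) (hm : 0 < m) (hb : Bd2 m M p u) {δ : ℝ}
    {n : ℕ} (h1 : p + A ≤ n) (h2 : p + B ≤ n) (h : M - δ ≤ u n) :
    M - 2 * δ ≤ u (n - A) ∧ M - 2 * δ ≤ u (n - B) := by
  obtain ⟨a1, a2⟩ := hb (n - A) (by omega)
  obtain ⟨b1, b2⟩ := hb (n - B) (by omega)
  have h3 : M - δ ≤ (u (n - A) + u (n - B)) / 2 := by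
    rcases hrec n (by omega) (by omega) with e | e
    · rw [← e]; exact h
    · rw [e] at h
      exact h.trans (mean_le (by linarith) (by linarith))
  constructor <;> linarith

lemma chain_up (hrec : MeanRec A B u) (hm : 0 < m) (hb : Bd2 m M p u) {δ : ℝ}
    {n : ℕ} (h : M - δ ≤ u n) :
    ∀ s t : ℕ, p + A + B + (s * A + t * B) ≤ n →
      M - 2 ^ (s + t) * δ ≤ u (n - (s * A + t * B)) := by
  have hs : ∀ s : ℕ, p + A + B + s * A ≤ n → M - 2 ^ s * δ ≤ u (n - s * A) := by
    intro s
    induction s with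
    | zero => intro _; simpa using h
    | succ s ih =>
      intro hn
      have e0 : (s + 1) * A = s * A + A := by ring
      rw [e0] at hn
      have := (step_up hrec hm hb (n := n - s * A) (by omega) (by omega) (ih (by omega))).1
      have e1 : n - s * A - A = n - (s + 1) * A := by rw [e0]; omega
      have e2 : (2 : ℝ) * (2 ^ s * δ) = 2 ^ (s + 1) * δ := by ring
      rw [e1, e2] at this
      exact this
  intro s t
  induction t with
  | zero => intro hn; simpa using hs s (by simpa using hn)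
  | succ t ih =>
    intro hn
    have e0 : (t + 1) * B = t * B + B := by ring
    rw [e0] at hn
    have := (step_up hrec hm hb (n := n - (s * A + t * B)) (by omega) (by omega)
      (ih (by omega))).2
    have e1 : n - (s * A + t * B) - B = n - (s * A + (t + 1) * B) := by rw [e0]; omega
    have e2 : (2 : ℝ) * (2 ^ (s + t) * δ) = 2 ^ (s + (t + 1)) * δ := by ring
    rw [e1, e2] at this
    exact this

/-- large numbers are combinations -/
lemma exists_comb (hA : 0 < A) (hB : 0 < B) (hc : Nat.Coprime A B) {r : ℕ} (hr : A * B ≤ r) :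
    ∃ s t : ℕ, s * A + t * B = r := by
  -- inverse of A modulo B
  obtain ⟨c, hcc⟩ : ∃ c : ℕ, c * A ≡ 1 [MOD B] := by
    rcases Nat.lt_or_ge 1 B with h | h
    · obtain ⟨c, -, hc'⟩ := Nat.exists_mul_mod_eq_one_of_coprime hc h
      refine ⟨c, ?_⟩
      rw [Nat.ModEq, Nat.mul_comm, hc', Nat.mod_eq_of_lt h]
    · have : B = 1 := by omega
      subst this
      exact ⟨0, Nat.modEq_one⟩
  set s := (c * r) % B with hs
  have hsB : s < B := Nat.mod_lt _ hB
  have h1 : s * A ≡ r [MOD B] := by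
    have h2 : s ≡ c * r [MOD B] := Nat.mod_modEq _ _
    calc s * A ≡ (c * r) * A [MOD B] := h2.mul_right A
      _ = (c * A) * r := by ring
      _ ≡ 1 * r [MOD B] := hcc.mul_right r
      _ = r := one_mul r
  have h3 : s * A ≤ r := by
    calc s * A ≤ B * A := Nat.mul_le_mul_right A hsB.le
      _ = A * B := Nat.mul_comm _ _
      _ ≤ r := hr
  obtain ⟨t, ht⟩ := (Nat.modEq_iff_dvd' h3).1 h1
  refine ⟨s, t, ?_⟩
  rw [Nat.mul_comm t B, ← ht]
  omega

lemma window (hrec : MeanRec A B u) {m' : ℝ} (hm' : 0 < m') {q : ℕ}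
    (hw : ∀ j, q ≤ j → j < q + max A B → m' ≤ u j) (hA : 0 < A) (hB : 0 < B) :
    ∀ j, q ≤ j → m' ≤ u j := by
  intro j
  induction j using Nat.strong_induction_on with
  | _ j ih =>
    intro hj
    rcases Nat.lt_or_ge j (q + max A B) with h | h
    · exact hw j hj h
    · have hA' := le_max_left A B
      have hB' := le_max_right A B
      have i1 := ih (j - A) (by omega) (by omega)
      have i2 := ih (j - B) (by omega) (by omega)
      rcases hrec j (by omega) (by omega) with e | e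
      · rw [e]; linarith
      · rw [e]; exact le_mean hm' i1 i2

lemma contract2 (hrec : MeanRec A B u) (hA : 0 < A) (hB : 0 < B) (hc : Nat.Coprime A B)
    (hm : 0 < m) (hmM : m ≤ M) (hb : Bd2 m M p u) :
    ∃ p' m' M', m ≤ m' ∧ m' ≤ M' ∧ Bd2 m' M' p' u ∧
      M' - m' ≤ (1 - 1 / 2 ^ (A * B + max A B + 1)) * (M - m) := by
  set Q := A * B + max A B with hQ
  have h2 : (0 : ℝ) < 2 ^ (Q + 1) := by positivity
  set δ : ℝ := (M - m) / 2 ^ (Q + 1) with hδ
  have hδ0 : 0 ≤ δ := div_nonneg (by linarith) h2.le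
  by_cases hex : ∃ n, p + A + B + Q ≤ n ∧ M - δ ≤ u n
  · obtain ⟨n, hn, hun⟩ := hex
    refine ⟨n - Q, (M + m) / 2, M, by linarith, by linarith, ?_, ?_⟩
    · have hwin : ∀ j, n - Q ≤ j → j < n - Q + max A B → (M + m) / 2 ≤ u j := by
        intro j hj1 hj2
        have hr : A * B ≤ n - j := by omega
        obtain ⟨s, t, hst⟩ := exists_comb hA hB hc hr
        have hch := chain_up hrec hm hb hun s t (by rw [hst]; omega)
        rw [hst] at hch
        have e : n - (n - j) = j := by omega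
        rw [e] at hch
        have hs1 : s ≤ s * A := Nat.le_mul_of_pos_right s hA
        have ht1 : t ≤ t * B := Nat.le_mul_of_pos_right t hB
        have hle : s + t ≤ Q := by omega
        have h3 : (2 : ℝ) ^ (s + t) * δ ≤ 2 ^ Q * δ :=
          mul_le_mul_of_nonneg_right (pow_le_pow_right₀ (by norm_num) hle) hδ0
        have h4 : (2 : ℝ) ^ Q * δ = (M - m) / 2 := by
          rw [hδ, pow_succ]
          field_simp
        linarith
      intro j hj
      refine ⟨window hrec (by linarith) hwin hA hB j hj, (hb j (by omega)).2⟩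
    · have h5 : (1 : ℝ) / 2 ^ (Q + 1) ≤ 1 / 2 := by
        apply one_div_le_one_div_of_le (by norm_num)
        calc (2 : ℝ) = 2 ^ 1 := by norm_num
          _ ≤ 2 ^ (Q + 1) := pow_le_pow_right₀ (by norm_num) (by omega)
      nlinarith
  · push Not at hex
    refine ⟨p + A + B + Q, m, M - δ, le_refl _, ?_, ?_, ?_⟩
    · have h6 : m ≤ u (p + A + B + Q) := (hb _ (by omega)).1
      have h7 := hex (p + A + B + Q) le_rfl
      linarith
    · intro j hj
      exact ⟨(hb j (by omega)).1, (hex j hj).le⟩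
    · have : M - δ - m = (1 - 1 / 2 ^ (Q + 1)) * (M - m) := by
        rw [hδ]
        field_simp
        ring
      rw [this]

theorem osc_tendsto (hrec : MeanRec A B u) (hA : 0 < A) (hB : 0 < B) (hc : Nat.Coprime A B)
    (hpos : ∀ n, n < max A B → 0 < u n) : ∃ l : ℝ, 0 < l ∧ Tendsto u atTop (𝓝 l) := by
  -- initial bounds
  obtain ⟨m, M, hm, hmM, hb⟩ : ∃ m M : ℝ, 0 < m ∧ m ≤ M ∧ Bd2 m M 0 u := by
    have hne : (Finset.range (max A B)).Nonempty := by
      rw [Finset.nonempty_range_iff]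
      omega
    obtain ⟨i0, hi0, hmin⟩ := Finset.exists_min_image (Finset.range (max A B)) u hne
    obtain ⟨i1, hi1, hmax⟩ := Finset.exists_max_image (Finset.range (max A B)) u hne
    have hm : 0 < u i0 := hpos i0 (Finset.mem_range.1 hi0)
    refine ⟨u i0, u i1, hm, hmin i1 hi1, ?_⟩
    intro j _
    induction j using Nat.strong_induction_on with
    | _ j ih =>
      rcases Nat.lt_or_ge j (max A B) with h | h
      · exact ⟨hmin j (Finset.mem_range.2 h), hmax j (Finset.mem_range.2 h)⟩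
      · have hA' := le_max_left A B
        have hB' := le_max_right A B
        obtain ⟨a1, a2⟩ := ih (j - A) (by omega) (Nat.zero_le _)
        obtain ⟨b1, b2⟩ := ih (j - B) (by omega) (Nat.zero_le _)
        have hle := mean_le (lt_of_lt_of_le hm a1) (lt_of_lt_of_le hm b1)
        rcases hrec j (by omega) (by omega) with e | e
        · rw [e]; constructor <;> linarith
        · rw [e]; exact ⟨le_mean hm a1 b1, by linarith⟩
  set ρ : ℝ := 1 - 1 / 2 ^ (A * B + max A B + 1) with hρ
  have hρ0 : 0 ≤ ρ := by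
    have : (1 : ℝ) / 2 ^ (A * B + max A B + 1) ≤ 1 := by
      rw [div_le_one (by positivity)]
      exact one_le_pow₀ (by norm_num)
    rw [hρ]
    linarith
  have hρ1 : ρ < 1 := by
    have : (0 : ℝ) < 1 / 2 ^ (A * B + max A B + 1) := by positivity
    rw [hρ]
    linarith
  have hit : ∀ i : ℕ, ∃ p' m' M', m ≤ m' ∧ m' ≤ M' ∧ Bd2 m' M' p' u ∧
      M' - m' ≤ ρ ^ i * (M - m) := by
    intro i
    induction i with
    | zero => exact ⟨0, m, M, le_refl _, hmM, hb, by simp⟩
    | succ i ih =>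
      obtain ⟨p', m', M', h1, h2, h3, h4⟩ := ih
      obtain ⟨p'', m'', M'', g1, g2, g3, g4⟩ := contract2 hrec hA hB hc (by linarith) h2 h3
      refine ⟨p'', m'', M'', by linarith, g2, g3, g4.trans ?_⟩
      rw [← hρ, pow_succ]
      calc ρ * (M' - m') ≤ ρ * (ρ ^ i * (M - m)) := mul_le_mul_of_nonneg_left h4 hρ0
        _ = ρ ^ i * ρ * (M - m) := by ring
  have hlim : Tendsto (fun i : ℕ => ρ ^ i * (M - m)) atTop (𝓝 0) := by
    have := (tendsto_pow_atTop_nhds_zero_of_lt_one hρ0 hρ1).mul_const (M - m)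
    simpa using this
  have hcau : CauchySeq u := by
    rw [Metric.cauchySeq_iff']
    intro ε hε
    obtain ⟨i, hi⟩ := ((tendsto_order.1 hlim).2 ε hε).exists
    obtain ⟨p', m', M', h1, h2, h3, h4⟩ := hit i
    refine ⟨p', fun n hn => ?_⟩
    obtain ⟨l1, u1⟩ := h3 n hn
    obtain ⟨l2, u2⟩ := h3 p' le_rfl
    rw [Real.dist_eq, abs_lt]
    constructor <;> linarith
  obtain ⟨l, hl⟩ := cauchySeq_tendsto_of_complete hcau
  refine ⟨l, ?_, hl⟩
  have : m ≤ l := ge_of_tendsto' hl (fun n => (hb n (Nat.zero_le _)).1)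
  linarith

end

end Pool.Agent.N420.BS
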