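import Pool.Agent.N420.BS.Conv
import Pool.Agent.N420.BS.Osc
import Pool.Agent.N420.BS.Defs

/-!
The basin of `√2`.
-/

namespace Pool.Agent.N420.BS

open Filter Topology

lemma sol_init {k l : ℕ} {v : Fin (max k l + 1) → ℝ} {n : ℕ} (h : n < max k l + 1) :
    sol k l v n = v ⟨n, h⟩ := by
  rw [sol, dif_pos h]

lemma sol_rec {k l : ℕ} {v : Fin (max k l + 1) → ℝ} {n : ℕ} (h1 : k + 1 ≤ n) (h2 : l + 1 ≤ n) :
    sol k l v n = 1 / sol k l v (n - (k + 1)) + 1 / sol k l v (n - (l + 1)) := by
  have h : ¬ n < max k l + 1 := by omega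
  rw [sol, dif_neg h]
  have e1 : n - 1 - k = n - (k + 1) := by omega
  have e2 : n - 1 - l = n - (l + 1) := by omega
  rw [e1, e2]

lemma sol_pos {k l : ℕ} {v : Fin (max k l + 1) → ℝ} (hv : ∀ i, 0 < v i) (n : ℕ) :
    0 < sol k l v n := by
  induction n using Nat.strong_induction_on with
  | _ n ih =>
    rcases Nat.lt_or_ge n (max k l + 1) with h | h
    · rw [sol_init h]
      exact hv _
    · have p1 := ih (n - (k + 1)) (by omega)
      have p2 := ih (n - (l + 1)) (by omega)
      rw [sol_rec (by omega) (by omega)]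
      positivity

/-- normalised solution -/
noncomputable def nsol (k l : ℕ) (v : Fin (max k l + 1) → ℝ) (n : ℕ) : ℝ :=
  sol k l v n / Real.sqrt 2

lemma nsol_pos {k l : ℕ} {v : Fin (max k l + 1) → ℝ} (hv : ∀ i, 0 < v i) (n : ℕ) :
    0 < nsol k l v n := by
  have := sol_pos hv n
  unfold nsol
  positivity

lemma nsol_rec {k l : ℕ} {v : Fin (max k l + 1) → ℝ} (hv : ∀ i, 0 < v i) :
    Rec (k + 1) (l + 1) (nsol k l v) := by
  intro n h1 h2
  have s0 : (0 : ℝ) < Real.sqrt 2 := by positivity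
  have s2 : Real.sqrt 2 * Real.sqrt 2 = 2 := Real.mul_self_sqrt (by norm_num)
  have p1 := sol_pos hv (n - (k + 1))
  have p2 := sol_pos hv (n - (l + 1))
  unfold nsol
  rw [sol_rec h1 h2]
  rw [one_div_div, one_div_div, div_eq_div_iff s0.ne' (by norm_num)]
  have e1 : Real.sqrt 2 / sol k l v (n - (k + 1)) = Real.sqrt 2 * (1 / sol k l v (n - (k + 1))) := by
    ring
  have e2 : Real.sqrt 2 / sol k l v (n - (l + 1)) = Real.sqrt 2 * (1 / sol k l v (n - (l + 1))) := by
    ring
  rw [e1, e2]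
  linear_combination (-(1 / sol k l v (n - (k + 1)) + 1 / sol k l v (n - (l + 1)))) * s2

lemma tendsto_iff {k l : ℕ} {v : Fin (max k l + 1) → ℝ} :
    Tendsto (sol k l v) atTop (𝓝 (Real.sqrt 2)) ↔ Tendsto (nsol k l v) atTop (𝓝 1) := by
  have s0 : Real.sqrt 2 ≠ 0 := by positivity
  constructor
  · intro h
    have := h.div_const (Real.sqrt 2)
    rw [div_self s0] at this
    exact this
  · intro h
    have := h.mul_const (Real.sqrt 2)
    rw [one_mul] at this
    refine this.congr fun n => ?_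
    unfold nsol
    field_simp

/-- data of the gcd -/
lemma gcd_data (a b : ℕ) (ha : 0 < a) (hb : 0 < b) :
    ∃ g A B, 0 < g ∧ 0 < A ∧ 0 < B ∧ a = g * A ∧ b = g * B ∧ Nat.Coprime A B ∧ g = Nat.gcd a b ∧
      (padicValNat 2 a = padicValNat 2 b ↔ A % 2 = B % 2) := by
  obtain ⟨g, A, B, hg, hc, h1, h2⟩ : ∃ g A B, 0 < g ∧ Nat.Coprime A B ∧ a = A * g ∧ b = B * g := by
    obtain ⟨A, B, hc, h1, h2⟩ := Nat.exists_coprime a b
    exact ⟨Nat.gcd a b, A, B, Nat.gcd_pos_of_pos_left _ ha, hc, h1, h2⟩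
  have hA : 0 < A := by
    rcases Nat.eq_zero_or_pos A with h | h
    · subst h; omega
    · exact h
  have hB : 0 < B := by
    rcases Nat.eq_zero_or_pos B with h | h
    · subst h; omega
    · exact h
  have hgcd : g = Nat.gcd a b := by
    rw [h1, h2, Nat.gcd_mul_right, hc.gcd_eq_one, one_mul]
  refine ⟨g, A, B, hg, hA, hB, by rw [h1, Nat.mul_comm], by rw [h2, Nat.mul_comm], hc, hgcd, ?_⟩
  rw [h1, h2, padicValNat.mul hA.ne' hg.ne', padicValNat.mul hB.ne' hg.ne']
  have key : ∀ C : ℕ, 0 < C → (padicValNat 2 C = 0 ↔ C % 2 = 1) := by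
    intro C hC
    rw [padicValNat.eq_zero_iff]
    constructor
    · intro h
      rcases h with h | h | h
      · omega
      · omega
      · omega
    · intro h
      right; right
      omega
  constructor
  · intro h
    have h' : padicValNat 2 A = padicValNat 2 B := by omega
    rcases Nat.mod_two_eq_zero_or_one A with ha | ha
    · rcases Nat.mod_two_eq_zero_or_one B with hb' | hb'
      · rw [ha, hb']
      · exfalso
        have := (key B hB).2 hb'
        rw [← h', key A hA] at this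
        omega
    · have := (key A hA).2 ha
      rw [h', key B hB] at this
      rw [ha, this]
  · intro h
    rcases Nat.mod_two_eq_zero_or_one A with ha | ha
    · exfalso
      have : 2 ∣ Nat.gcd A B := Nat.dvd_gcd (by omega) (by omega)
      rw [hc.gcd_eq_one] at this
      omega
    · have h3 := (key A hA).2 ha
      have h4 := (key B hB).2 (by omega)
      rw [h3, h4]

/-- convergence of every solution -/
theorem attract {k l : ℕ} (h : padicValNat 2 (k + 1) ≠ padicValNat 2 (l + 1))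
    {v : Fin (max k l + 1) → ℝ} (hv : ∀ i, 0 < v i) :
    Tendsto (sol k l v) atTop (𝓝 (Real.sqrt 2)) := by
  obtain ⟨g, A, B, hg, hA, hB, h1, h2, hc, -, hpar⟩ := gcd_data (k + 1) (l + 1) (by omega) (by omega)
  rw [tendsto_iff]
  refine tendsto_one (nsol_rec hv) (by omega) (by omega) (fun n _ => nsol_pos hv n)
    (A := A) (B := B) ?_ (fun h' => h (hpar.2 h'))
  rw [h1, h2]
  ring

section equal

variable {k l g A B : ℕ}

/-- the sign of the block of `n` -/
lemma block {g A n : ℕ} (hg : 0 < g) (hA : A % 2 = 1) (hn : g * A ≤ n) :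
    ((n - g * A) / g % 2 = 0 ↔ ¬ (n / g % 2 = 0)) := by
  have h1 : (n - g * A) / g = n / g - A := Nat.sub_mul_div n g A
  have h2 : A ≤ n / g := by
    rw [Nat.le_div_iff_mul_le hg, Nat.mul_comm]
    exact hn
  rw [h1]
  omega

/-- transformed solution -/
noncomputable def wsol (k l g : ℕ) (v : Fin (max k l + 1) → ℝ) (n : ℕ) : ℝ :=
  if n / g % 2 = 0 then nsol k l v n else 1 / nsol k l v n

lemma wsol_pos {v : Fin (max k l + 1) → ℝ} (hv : ∀ i, 0 < v i) (n : ℕ) :
    0 < wsol k l g v n := by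
  have := nsol_pos hv n
  unfold wsol
  split_ifs <;> positivity

lemma wsol_rec (hg : 0 < g) (hA : A % 2 = 1) (hB : B % 2 = 1) (h1 : k + 1 = g * A)
    (h2 : l + 1 = g * B) {v : Fin (max k l + 1) → ℝ} (hv : ∀ i, 0 < v i) {n : ℕ}
    (n1 : g * A ≤ n) (n2 : g * B ≤ n) :
    wsol k l g v n = (wsol k l g v (n - g * A) + wsol k l g v (n - g * B)) / 2 ∨
    wsol k l g v n = 2 / (1 / wsol k l g v (n - g * A) + 1 / wsol k l g v (n - g * B)) := by
  have hr := nsol_rec hv n (by omega) (by omega)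
  rw [h1, h2] at hr
  have b1 := block hg hA n1
  have b2 := block hg hB n2
  have p1 := nsol_pos hv (n - g * A)
  have p2 := nsol_pos hv (n - g * B)
  by_cases h : n / g % 2 = 0
  · left
    have c1 : ¬ ((n - g * A) / g % 2 = 0) := fun h' => b1.1 h' h
    have c2 : ¬ ((n - g * B) / g % 2 = 0) := fun h' => b2.1 h' h
    simp only [wsol, if_pos h, if_neg c1, if_neg c2]
    exact hr
  · right
    have c1 := b1.2 h
    have c2 := b2.2 h
    simp only [wsol, if_neg h, if_pos c1, if_pos c2]
    rw [hr, one_div_div]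

/-- the class sequences converge -/
theorem wsol_tendsto (hg : 0 < g) (hA : A % 2 = 1) (hB : B % 2 = 1) (hc : Nat.Coprime A B)
    (h1 : k + 1 = g * A) (h2 : l + 1 = g * B) {v : Fin (max k l + 1) → ℝ} (hv : ∀ i, 0 < v i)
    (i : ℕ) : ∃ L : ℝ, 0 < L ∧ Tendsto (fun j => wsol k l g v (g * j + i)) atTop (𝓝 L) := by
  refine osc_tendsto (A := A) (B := B) ?_ (by omega) (by omega) hc (fun n _ => wsol_pos hv _)
  intro n n1 n2
  have m1 : g * A ≤ g * n := Nat.mul_le_mul_left g n1
  have m2 : g * B ≤ g * n := Nat.mul_le_mul_left g n2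
  have := wsol_rec hg hA hB h1 h2 hv (n := g * n + i) (by omega) (by omega)
  have e1 : g * n + i - g * A = g * (n - A) + i := by
    rw [Nat.mul_sub]
    omega
  have e2 : g * n + i - g * B = g * (n - B) + i := by
    rw [Nat.mul_sub]
    omega
  rw [e1, e2] at this
  exact this

/-- `x → √2` if and only if all class limits are `1` -/
theorem tendsto_iff_classes (hg : 0 < g) {v : Fin (max k l + 1) → ℝ} (hv : ∀ i, 0 < v i) :
    Tendsto (sol k l v) atTop (𝓝 (Real.sqrt 2)) ↔
      ∀ i, i < g → Tendsto (fun j => wsol k l g v (g * j + i)) atTop (𝓝 1) := by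
  rw [tendsto_iff]
  have hw : Tendsto (nsol k l v) atTop (𝓝 1) ↔ Tendsto (wsol k l g v) atTop (𝓝 1) := by
    constructor
    · intro h
      have h' : Tendsto (fun n => 1 / nsol k l v n) atTop (𝓝 1) := by
        have := h.inv₀ one_ne_zero
        simpa using this
      rw [Metric.tendsto_atTop] at h h' ⊢
      intro ε hε
      obtain ⟨n1, hn1⟩ := h ε hε
      obtain ⟨n2, hn2⟩ := h' ε hε
      refine ⟨max n1 n2, fun n hn => ?_⟩
      unfold wsol
      split_ifs
      · exact hn1 n (le_trans (le_max_left _ _) hn)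
      · exact hn2 n (le_trans (le_max_right _ _) hn)
    · intro h
      have h' : Tendsto (fun n => 1 / wsol k l g v n) atTop (𝓝 1) := by
        have := h.inv₀ one_ne_zero
        simpa using this
      rw [Metric.tendsto_atTop] at h h' ⊢
      intro ε hε
      obtain ⟨n1, hn1⟩ := h ε hε
      obtain ⟨n2, hn2⟩ := h' ε hε
      refine ⟨max n1 n2, fun n hn => ?_⟩
      have g1 := hn1 n (le_trans (le_max_left _ _) hn)
      have g2 := hn2 n (le_trans (le_max_right _ _) hn)
      unfold wsol at g1 g2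
      split_ifs at g1 g2
      · exact g1
      · rw [one_div_one_div] at g2
        exact g2
  rw [hw]
  constructor
  · intro h i _
    refine h.comp ?_
    refine tendsto_atTop_mono (fun j => ?_) tendsto_id
    have : j ≤ g * j := Nat.le_mul_of_pos_left j hg
    simp only [id]
    omega
  · intro h
    rw [Metric.tendsto_atTop]
    intro ε hε
    have h' : ∀ i, ∃ N : ℕ, i < g → ∀ j ≥ N, dist (wsol k l g v (g * j + i)) 1 < ε := by
      intro i
      by_cases hi : i < g
      · obtain ⟨N, hN⟩ := (Metric.tendsto_atTop.1 (h i hi)) ε hε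
        exact ⟨N, fun _ => hN⟩
      · exact ⟨0, fun h => absurd h hi⟩
    choose N hN using h'
    refine ⟨g * (∑ i ∈ Finset.range g, N i) + g, fun n hn => ?_⟩
    have hmod := Nat.mod_lt n hg
    have hdm := Nat.div_add_mod n g
    have hle : N (n % g) ≤ ∑ i ∈ Finset.range g, N i :=
      Finset.single_le_sum (f := N) (fun _ _ => Nat.zero_le _) (Finset.mem_range.2 hmod)
    have hdiv : N (n % g) ≤ n / g := by
      rw [Nat.le_div_iff_mul_le hg]
      calc N (n % g) * g ≤ (∑ i ∈ Finset.range g, N i) * g := Nat.mul_le_mul_right g hle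
        _ = g * (∑ i ∈ Finset.range g, N i) := Nat.mul_comm _ _
        _ ≤ n := by omega
    have := hN (n % g) hmod (n / g) hdiv
    rwa [hdm] at this

/-- scaling of solutions -/
lemma sol_scale (hg : 0 < g) (hA : A % 2 = 1) (hB : B % 2 = 1) (h1 : k + 1 = g * A)
    (h2 : l + 1 = g * B) {v : Fin (max k l + 1) → ℝ} (hv : ∀ i, 0 < v i) {c : Fin g → ℝ}
    (hcp : ∀ i, 0 < c i) (n : ℕ) :
    sol k l (scale hg c v) n = if n / g % 2 = 0 then sol k l v n * c ⟨n % g, Nat.mod_lt _ hg⟩
      else sol k l v n / c ⟨n % g, Nat.mod_lt _ hg⟩ := by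
  induction n using Nat.strong_induction_on with
  | _ n ih =>
    rcases Nat.lt_or_ge n (max k l + 1) with h | h
    · rw [sol_init h, sol_init h, scale]
    · have i1 := ih (n - (k + 1)) (by omega)
      have i2 := ih (n - (l + 1)) (by omega)
      rw [sol_rec (v := scale hg c v) (by omega) (by omega), i1, i2,
        sol_rec (v := v) (n := n) (by omega) (by omega)]
      have n1 : g * A ≤ n := by omega
      have n2 : g * B ≤ n := by omega
      have b1 := block hg hA n1
      have b2 := block hg hB n2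
      have m1 : (n - g * A) % g = n % g := Nat.sub_mul_mod n1
      have m2 : (n - g * B) % g = n % g := Nat.sub_mul_mod n2
      have p1 := sol_pos hv (n - g * A)
      have p2 := sol_pos hv (n - g * B)
      simp only [h1, h2, m1, m2]
      have hcc := hcp ⟨n % g, Nat.mod_lt _ hg⟩
      by_cases hn : n / g % 2 = 0
      · have c1 : ¬ ((n - g * A) / g % 2 = 0) := fun h' => b1.1 h' hn
        have c2 : ¬ ((n - g * B) / g % 2 = 0) := fun h' => b2.1 h' hn
        rw [if_neg c1, if_neg c2, if_pos hn]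
        field_simp
      · have c1 := b1.2 hn
        have c2 := b2.2 hn
        rw [if_pos c1, if_pos c2, if_neg hn]
        field_simp

lemma scale_pos (hg : 0 < g) {N : ℕ} {v : Fin N → ℝ} (hv : ∀ i, 0 < v i) {c : Fin g → ℝ}
    (hcp : ∀ i, 0 < c i) (i : Fin N) : 0 < scale hg c v i := by
  have := hv i
  have := hcp ⟨i % g, Nat.mod_lt _ hg⟩
  unfold scale
  split_ifs <;> positivity

lemma wsol_scale (hg : 0 < g) (hA : A % 2 = 1) (hB : B % 2 = 1) (h1 : k + 1 = g * A)
    (h2 : l + 1 = g * B) {v : Fin (max k l + 1) → ℝ} (hv : ∀ i, 0 < v i) {c : Fin g → ℝ}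
    (hcp : ∀ i, 0 < c i) (n : ℕ) :
    wsol k l g (scale hg c v) n = wsol k l g v n * c ⟨n % g, Nat.mod_lt _ hg⟩ := by
  have hs := sol_scale hg hA hB h1 h2 hv hcp n
  have hcc := hcp ⟨n % g, Nat.mod_lt _ hg⟩
  have p := sol_pos hv n
  unfold wsol nsol
  rw [hs]
  split_ifs
  · ring
  · field_simp

/-- the basin meets every orbit of the scaling action in exactly one point -/
theorem section_unique (hg : 0 < g) (hA : A % 2 = 1) (hB : B % 2 = 1) (hc : Nat.Coprime A B)
    (h1 : k + 1 = g * A) (h2 : l + 1 = g * B) {v : Fin (max k l + 1) → ℝ} (hv : ∀ i, 0 < v i) :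
    ∃! c : Fin g → ℝ, (∀ i, 0 < c i) ∧ scale hg c v ∈ basin k l := by
  have hL := fun i : ℕ => wsol_tendsto hg hA hB hc h1 h2 hv i
  choose L hLpos hLlim using hL
  have hlim : ∀ c : Fin g → ℝ, (∀ i, 0 < c i) → ∀ i (hi : i < g),
      Tendsto (fun j => wsol k l g (scale hg c v) (g * j + i)) atTop (𝓝 (L i * c ⟨i, hi⟩)) := by
    intro c hcp i hi
    have := (hLlim i).mul_const (c ⟨i, hi⟩)
    refine this.congr fun j => ?_
    rw [wsol_scale hg hA hB h1 h2 hv hcp]
    congr 2
    apply Fin.ext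
    simp only [Nat.mul_add_mod, Nat.mod_eq_of_lt hi]
  refine ⟨fun i => 1 / L i, ⟨fun i => one_div_pos.2 (hLpos i), ?_⟩, ?_⟩
  · have hcp : ∀ i : Fin g, 0 < 1 / L i := fun i => one_div_pos.2 (hLpos i)
    refine ⟨fun i => scale_pos hg hv hcp i, ?_⟩
    rw [tendsto_iff_classes hg (fun i => scale_pos hg hv hcp i)]
    intro i hi
    have := hlim (fun i => 1 / L i) hcp i hi
    have e : L i * (1 / L i) = 1 := by
      have := (hLpos i).ne'
      field_simp
    simp only [e] at this
    exact this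
  · intro c ⟨hcp, hcb⟩
    obtain ⟨hp, ht⟩ := hcb
    rw [tendsto_iff_classes hg hp] at ht
    funext i
    have t1 := ht i i.2
    have t2 := hlim c hcp i i.2
    have := tendsto_nhds_unique t1 t2
    have hne := (hLpos i).ne'
    field_simp
    simp only [Fin.eta] at this
    linarith

end equal

/-- not everything is in the basin if the valuations are equal -/
theorem not_all {k l : ℕ} (h : padicValNat 2 (k + 1) = padicValNat 2 (l + 1)) :
    ∃ v : Fin (max k l + 1) → ℝ, (∀ i, 0 < v i) ∧ v ∉ basin k l := by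
  obtain ⟨g, A, B, hg, hA, hB, h1, h2, hc, -, hpar⟩ := gcd_data (k + 1) (l + 1) (by omega) (by omega)
  have hAB := hpar.1 h
  have hA1 : A % 2 = 1 := by
    rcases Nat.mod_two_eq_zero_or_one A with ha | ha
    · exfalso
      have : 2 ∣ Nat.gcd A B := Nat.dvd_gcd (by omega) (by omega)
      rw [hc.gcd_eq_one] at this
      omega
    · exact ha
  have hB1 : B % 2 = 1 := by omega
  have hone : ∀ i : Fin (max k l + 1), (0 : ℝ) < (fun _ => 1 : Fin (max k l + 1) → ℝ) i :=
    fun _ => one_pos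
  obtain ⟨c, ⟨hcp, hcb⟩, huniq⟩ := section_unique hg hA1 hB1 hc h1 h2 hone
  have hc2 : ∀ i, 0 < (fun i => 2 * c i : Fin g → ℝ) i := fun i => by
    have := hcp i
    simp only
    positivity
  refine ⟨scale hg (fun i => 2 * c i) (fun _ => 1), fun i => scale_pos hg hone hc2 i, ?_⟩
  intro hmem
  have := huniq (fun i => 2 * c i) ⟨hc2, hmem⟩
  have h0 : 2 * c ⟨0, hg⟩ = c ⟨0, hg⟩ := congrFun this ⟨0, hg⟩
  have := hcp ⟨0, hg⟩
  linarith

/-- The criterion. -/
theorem criterion (k l : ℕ) :
    basin k l = {v | ∀ i, 0 < v i} ↔ padicValNat 2 (k + 1) ≠ padicValNat 2 (l + 1) := by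
  constructor
  · intro h heq
    obtain ⟨v, hv, hv'⟩ := not_all heq
    apply hv'
    rw [h]
    exact hv
  · intro h
    apply Set.Subset.antisymm
    · intro v hv
      exact hv.1
    · intro v hv
      exact ⟨hv, attract h hv⟩

/-- The section theorem. -/
theorem section_main (k l : ℕ) (h : padicValNat 2 (k + 1) = padicValNat 2 (l + 1)) :
    ∃ hg : 0 < Nat.gcd (k + 1) (l + 1), ∀ v : Fin (max k l + 1) → ℝ, (∀ i, 0 < v i) →
      ∃! c : Fin (Nat.gcd (k + 1) (l + 1)) → ℝ, (∀ i, 0 < c i) ∧ scale hg c v ∈ basin k l := by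
  obtain ⟨g, A, B, hg, hA, hB, h1, h2, hc, hgcd, hpar⟩ :=
    gcd_data (k + 1) (l + 1) (by omega) (by omega)
  have hAB := hpar.1 h
  have hA1 : A % 2 = 1 := by
    rcases Nat.mod_two_eq_zero_or_one A with ha | ha
    · exfalso
      have : 2 ∣ Nat.gcd A B := Nat.dvd_gcd (by omega) (by omega)
      rw [hc.gcd_eq_one] at this
      omega
    · exact ha
  have hB1 : B % 2 = 1 := by omega
  subst hgcd
  exact ⟨hg, fun v hv => section_unique hg hA1 hB1 hc h1 h2 hv⟩

end Pool.Agent.N420.BS
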